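import Pool.Agent.H87.PG.CutM
import Pool.Agent.H87.PE.Tra

/-!
# Module RErrM: the renormalised part (block R' of P-UP)

Copy of H87/PF/ErrR.lean for bounded Hölder functions with any exponent `m > 2s`.
-/

set_option autoImplicit false

open MeasureTheory Set Filter Topology Pool.Agent.H25.Kin Pool.Agent.H48.PL
open Pool.Agent.H15.AV (gau UNice)
open Pool.Agent.H48.PI (om Dn bet')
open Pool.Agent.H87.PE Pool.Agent.H87.PF

namespace Pool.Agent.H87.PG

variable {d : ℕ} {s a β C Ca : ℝ} {b : ℝ → ℝ}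

private lemma err_PG {φ : Vec d → ℝ} {A : ℝ} (h : ∀ v, |φ v| ≤ A) : PG φ := by
  refine ⟨0, A, fun v => ?_⟩
  rw [pow_zero, mul_one, Real.norm_eq_abs]
  exact h v

private lemma err_gau (v : Vec d) : 0 < gau v ∧ gau v ≤ 1 := by
  refine ⟨Real.exp_pos _, ?_⟩
  unfold gau
  rw [← Real.exp_zero]
  exact Real.exp_le_exp.2 (by linarith [sq_nonneg' v])

theorem err_renm (H : Hyp d (1 + a) s b C Ca) (E : EQ a β) (hm : 2 * s < β) :
    ∃ K : ℝ, 0 ≤ K ∧ ∀ e₀ : ℝ, 0 < e₀ → e₀ ≤ 1 → ∀ (A₁ C₀ : ℝ) (Cl : ℕ → ℝ), 0 < C₀ →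
      ∀ η : ℝ, 0 < η → ∃ δ₀ > 0, ∀ δ ∈ Ioc (0 : ℝ) δ₀, ∀ g : Vec d → ℝ, UNice Cl g →
      ∀ A : ℝ, 0 ≤ A → A ≤ A₁ → ∀ ψ : Vec d → ℝ, HBd β A ψ →
      |∫ w, bet' C₀ (g w) * boltzQ (1 + a) b g w * ψ w| ≤
        A * ((1 / e₀ + K) * Dn (1 + a) b δ g + e₀ * K * XN a β 1 g) + η := by
  obtain ⟨K₂, hK₂, hcut⟩ := ren_cut H E hm
  set K : ℝ := K₂ with hKdef
  have hK : 0 ≤ K := by positivity
  refine ⟨K, hK, fun e₀ he₀ he₁ A₁ C₀ Cl hC₀ η hη => ?_⟩
  obtain ⟨D, hD, hdec⟩ := Pool.Agent.H15.AV.boltzCut_decay_unif H Cl (d + 1)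
  have hI0 : 0 ≤ ∫ z, wt d z := integral_nonneg fun z => wt_nonneg z
  set M : ℝ := 1 / e₀ + K₂ + e₀ * K₂ with hM
  have hM0 : 0 ≤ M := by positivity
  set B : ℝ := |A₁| * M + 2 with hB
  have hB0 : 0 < B := by positivity
  set η' : ℝ := η / B with hη'
  have hη'0 : 0 < η' := div_pos hη hB0
  have hηB : B * η' = η := by
    rw [hη']
    field_simp
  obtain ⟨δa, hδa, hδah, htra⟩ := tra H Cl (2 * A₁) hη'0
  obtain ⟨δb, hδb, hδbh, hPc⟩ := Pc_lim H Cl hη'0
  obtain ⟨δc, hδc, hXN⟩ := XN_reg (d := d) E Cl hη'0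
  set Z : ℝ := 2 / C₀ * |A₁| * D * (∫ z, wt d z) with hZ
  have hZ0 : 0 ≤ Z := by positivity
  refine ⟨min (min δa δb) (min δc (η' / (Z + 1))),
    lt_min (lt_min hδa hδb) (lt_min hδc (by positivity)), ?_⟩
  intro δ hδ g hg A hA hAA ψ hψ
  have hψA := hψ.h0
  have hψm := hψ.meas
  have hd0 : 0 < δ := hδ.1
  have hda : δ ≤ δa := hδ.2.trans ((min_le_left _ _).trans (min_le_left _ _))
  have hdb : δ ≤ δb := hδ.2.trans ((min_le_left _ _).trans (min_le_right _ _))
  have hdc : δ ≤ δc := hδ.2.trans ((min_le_right _ _).trans (min_le_left _ _))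
  have hde : δ ≤ η' / (Z + 1) := hδ.2.trans ((min_le_right _ _).trans (min_le_right _ _))
  have hdZ : δ * Z ≤ η' := by
    rw [le_div_iff₀ (by linarith)] at hde
    nlinarith
  have hd1 : δ ≤ 1 := by linarith
  have hA1 : 0 ≤ A₁ := hA.trans hAA
  have hG := gd_reg hg hd0 hd1
  have hG0 : ∀ v, 0 ≤ g v + δ * gau v := fun v => (hG.pos v).le
  have hbm : ∀ f : Vec d → ℝ, Measurable f → Measurable fun v => bet' C₀ (f v) := by
    intro f hf
    unfold bet'
    exact ((measurable_const.div (hf.const_add C₀))).pow_const 2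
  set L : Vec d → ℝ := fun v => bet' C₀ (g v + δ * gau v) * ψ v with hL
  have hLm : Measurable L := (hbm _ hG.cont.measurable).mul hψm
  have hLA : ∀ v, |L v| ≤ A := by
    intro v
    simp only [hL]
    rw [abs_mul, abs_of_nonneg (bet_nonneg _ _)]
    calc bet' C₀ (g v + δ * gau v) * |ψ v| ≤ 1 * A :=
          mul_le_mul (bet_le_one hC₀ (hG0 v)) (hψA v) (abs_nonneg _) zero_le_one
      _ = A := one_mul A
  have hLP : PG L := err_PG hLA
  have hlin : ∀ v, |L v - L 0| ≤ 2 * A₁ * (1 + ‖v‖) := by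
    intro v
    have q1 := abs_le.1 (hLA v)
    have q2 := abs_le.1 (hLA 0)
    have q3 : |L v - L 0| ≤ 2 * A := by
      rw [abs_le]
      constructor <;> linarith
    have q4 : 2 * A₁ * 1 ≤ 2 * A₁ * (1 + ‖v‖) :=
      mul_le_mul_of_nonneg_left (one_le_w v) (by positivity)
    linarith
  obtain ⟨hDn, hev⟩ := hPc δ ⟨hd0, hdb⟩ g hg
  have hx1 := hXN δ ⟨hd0, hdc⟩ g hg 1 le_rfl
  have hlim := (boltz_weak_tendsto H hg.nice hLP hLm).abs
  -- the estimate with the regularized renormalization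
  have hmain : |∫ v, boltzQ (1 + a) b g v * L v| ≤
      A * ((1 / e₀ + K) * Dn (1 + a) b δ g + e₀ * K * XN a β 1 g) + (|A₁| * M * η' + η') := by
    refine le_of_tendsto hlim ?_
    filter_upwards [hev, self_mem_nhdsWithin] with ε hPε hε
    have hε0 : 0 < ε := hε
    have t1 := htra δ ⟨hd0, hda⟩ g hg L hLm hlin ε hε0
    have t2 := hcut e₀ he₀ he₁ C₀ hC₀ _ hG ε hε0 A hA ψ hψ
    have hAa : A ≤ |A₁| := hAA.trans (le_abs_self _)
    have s1 : (1 / e₀ + K₂) * Pc (1 + a) b ε (fun v => g v + δ * gau v) ≤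
        (1 / e₀ + K₂) * Dn (1 + a) b δ g + (1 / e₀ + K₂) * η' := by
      have := mul_le_mul_of_nonneg_left hPε (by positivity : (0 : ℝ) ≤ 1 / e₀ + K₂)
      linarith
    have s2 : e₀ * K₂ * XN a β 1 (fun v => g v + δ * gau v) ≤
        e₀ * K₂ * (XN a β 1 g + η') :=
      mul_le_mul_of_nonneg_left hx1 (by positivity)
    have s3 : A * ((1 / e₀ + K₂) * Pc (1 + a) b ε (fun v => g v + δ * gau v) +
        e₀ * K₂ * XN a β 1 (fun v => g v + δ * gau v)) ≤
        A * ((1 / e₀ + K) * Dn (1 + a) b δ g + e₀ * K * XN a β 1 g) + A * (M * η') := by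
      rw [← mul_add]
      refine mul_le_mul_of_nonneg_left ?_ hA
      rw [hM]
      nlinarith [s1, s2]
    have s4 : A * (M * η') ≤ |A₁| * M * η' := by
      have := mul_le_mul_of_nonneg_right hAa (mul_nonneg hM0 hη'0.le)
      calc _ ≤ |A₁| * (M * η') := this
        _ = _ := by ring
    linarith
  -- back to `bet' (g)`
  have hQd : ∀ v, |boltzQ (1 + a) b g v| ≤ D * wt d v := by
    intro v
    refine le_of_tendsto (boltz_tendsto H hg.nice v).abs ?_
    filter_upwards [self_mem_nhdsWithin] with ε hε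
    exact hdec g hg ε hε v
  have hQm : Measurable fun v => boltzQ (1 + a) b g v := by
    refine measurable_of_tendsto_metrizable' (𝓝[>] (0 : ℝ)) (f := fun ε v => boltzCut (1 + a) b ε g v)
      (fun ε => (boltzCut_meas H.bm hg.nice.cont ε).measurable) ?_
    rw [tendsto_pi_nhds]
    exact fun v => boltz_tendsto H hg.nice v
  have iQ : ∀ F : Vec d → ℝ, Measurable F → (∀ v, |F v| ≤ A) →
      Integrable fun v => boltzQ (1 + a) b g v * F v := by
    intro F hF hFA
    refine (integrable_wt.const_mul (D * A)).mono' (hQm.mul hF).aestronglyMeasurable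
      (Eventually.of_forall fun v => ?_)
    rw [norm_mul, Real.norm_eq_abs, Real.norm_eq_abs]
    calc |boltzQ (1 + a) b g v| * |F v| ≤ (D * wt d v) * A :=
          mul_le_mul (hQd v) (hFA v) (abs_nonneg _) (mul_nonneg hD (wt_nonneg v))
      _ = D * A * wt d v := by ring
  set L' : Vec d → ℝ := fun v => bet' C₀ (g v) * ψ v with hL'
  have hLm' : Measurable L' := (hbm _ hg.nice.cont.measurable).mul hψm
  have hLA' : ∀ v, |L' v| ≤ A := by
    intro v
    simp only [hL']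
    rw [abs_mul, abs_of_nonneg (bet_nonneg _ _)]
    calc bet' C₀ (g v) * |ψ v| ≤ 1 * A :=
          mul_le_mul (bet_le_one hC₀ (hg.nonneg v)) (hψA v) (abs_nonneg _) zero_le_one
      _ = A := one_mul A
  have hdiff : |(∫ v, boltzQ (1 + a) b g v * L' v) - ∫ v, boltzQ (1 + a) b g v * L v| ≤ η' := by
    rw [← integral_sub (iQ L' hLm' hLA') (iQ L hLm hLA), ← Real.norm_eq_abs]
    have hb : ∀ v, ‖boltzQ (1 + a) b g v * L' v - boltzQ (1 + a) b g v * L v‖ ≤
        (δ * (2 / C₀ * |A₁| * D)) * wt d v := by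
      intro v
      obtain ⟨g0, g1⟩ := err_gau v
      have q0 : 0 ≤ δ * gau v := mul_nonneg hd0.le g0.le
      have q1 := bet_lip hC₀ (hg.nonneg v) (hG0 v)
      have q2 : |g v - (g v + δ * gau v)| ≤ δ := by
        have : g v - (g v + δ * gau v) = -(δ * gau v) := by ring
        rw [this, abs_neg, abs_of_nonneg q0]
        exact mul_le_of_le_one_right hd0.le g1
      have q3 : |L' v - L v| ≤ 2 / C₀ * δ * |A₁| := by
        have e : L' v - L v = (bet' C₀ (g v) - bet' C₀ (g v + δ * gau v)) * ψ v := by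
          simp only [hL, hL']
          ring
        rw [e, abs_mul]
        have q4 : |bet' C₀ (g v) - bet' C₀ (g v + δ * gau v)| ≤ 2 / C₀ * δ :=
          q1.trans (mul_le_mul_of_nonneg_left q2 (by positivity))
        exact mul_le_mul q4 ((hψA v).trans (hAA.trans (le_abs_self _))) (abs_nonneg _)
          (by positivity)
      have e2 : boltzQ (1 + a) b g v * L' v - boltzQ (1 + a) b g v * L v =
          boltzQ (1 + a) b g v * (L' v - L v) := by ring
      rw [e2, norm_mul, Real.norm_eq_abs, Real.norm_eq_abs]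
      calc |boltzQ (1 + a) b g v| * |L' v - L v| ≤ (D * wt d v) * (2 / C₀ * δ * |A₁|) :=
            mul_le_mul (hQd v) q3 (abs_nonneg _) (mul_nonneg hD (wt_nonneg v))
        _ = _ := by ring
    refine (norm_integral_le_of_norm_le (integrable_wt.const_mul _)
      (Eventually.of_forall hb)).trans ?_
    rw [integral_const_mul]
    calc δ * (2 / C₀ * |A₁| * D) * ∫ z, wt d z = δ * Z := by rw [hZ]; ring
      _ ≤ η' := hdZ
  have efin : ∫ w, bet' C₀ (g w) * boltzQ (1 + a) b g w * ψ w =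
      ∫ v, boltzQ (1 + a) b g v * L' v := by
    refine integral_congr_ae (Eventually.of_forall fun v => ?_)
    simp only [hL']
    ring
  rw [efin]
  have k1 : |∫ v, boltzQ (1 + a) b g v * L' v| ≤
      |(∫ v, boltzQ (1 + a) b g v * L' v) - ∫ v, boltzQ (1 + a) b g v * L v| +
        |∫ v, boltzQ (1 + a) b g v * L v| := by
    have := abs_add_le ((∫ v, boltzQ (1 + a) b g v * L' v) - ∫ v, boltzQ (1 + a) b g v * L v)
      (∫ v, boltzQ (1 + a) b g v * L v)
    rwa [sub_add_cancel] at this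
  have k2 : B * η' = |A₁| * M * η' + 2 * η' := by
    rw [hB]
    ring
  linarith

end Pool.Agent.H87.PG
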