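import Pool.Agent.H87.PG.HErr
import Pool.Agent.H87.PG.RErrM
import Pool.Agent.H85.UP.Defs

/-!
# Module Fin: blocks R' and H' of P-UP (statements of H85/UP/Blk.lean)
-/

set_option autoImplicit false

open MeasureTheory Set Filter Topology Pool.Agent.H25.Kin Pool.Agent.H82.BK Pool.Agent.H82.CM
open Pool.Agent.H48.PL Pool.Agent.H48.PI Pool.Agent.H48.PW Pool.Agent.H85.UP
open Pool.Agent.H15.AV (UNice gau)

namespace Pool.Agent.H87.PG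

variable {d : ℕ} {s a m q C Ca cb : ℝ} {b : ℝ → ℝ}

private lemma eq_of (U : UE s a m q) : EQ a m where
  ha := by have := U.hs; have := U.has; linarith
  a1 := by have := U.hs; have := U.ha1; linarith
  β0 := by have := U.hs; have := U.hm; linarith
  hβ1 := by have := U.hs; have := U.has; have := U.hm1; linarith

/-- block R': renormalized Hölder test functions -/
theorem err_ren2 (HL : HypL d (1 + a) s b C Ca cb) (U : UE s a m q) :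
    ∃ K : ℝ, 0 ≤ K ∧ ∀ ε : ℝ, 0 < ε → ε ≤ 1 → ∀ (A₁ C₀ : ℝ) (Cl : ℕ → ℝ), 0 < C₀ → ∀ η > 0,
      ∃ δ₀ > 0, ∀ δ ∈ Ioc (0 : ℝ) δ₀, ∀ g : Vec d → ℝ, UNice Cl g →
      ∀ A : ℝ, 0 ≤ A → A ≤ A₁ → ∀ ψ : Vec d → ℝ, Measurable ψ → (∀ w, |ψ w| ≤ A) →
      (∀ w w', |ψ w - ψ w'| ≤ A * len (w - w') ^ m) →
      |∫ w, bet' C₀ (g w) * boltzQ (1 + a) b g w * ψ w| ≤
        A * ((1 / ε + K) * Dn (1 + a) b δ g + ε * K * XT a m 1 g) + η := by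
  have E := eq_of U
  have H := HL.H
  obtain ⟨K, hK, h⟩ := err_renm H E U.hm
  refine ⟨4 * K, by positivity, fun ε hε hε1 A₁ C₀ Cl hC₀ η hη => ?_⟩
  obtain ⟨M, hM⟩ : ∃ M : ℝ, M = 3 * K * |A₁| + 1 := ⟨_, rfl⟩
  have hM0 : 0 < M := by rw [hM]; positivity
  have hη2 : 0 < η / 2 := by linarith
  obtain ⟨δ₁, hδ₁, h1⟩ := h ε hε hε1 A₁ C₀ Cl hC₀ (η / 2) hη2
  obtain ⟨δ₂, hδ₂, -, h2⟩ := Pool.Agent.H87.PE.Pc_lim H Cl (div_pos hη2 hM0)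
  refine ⟨min δ₁ δ₂, lt_min hδ₁ hδ₂, fun δ hδ g hg A hA hAA ψ hψm hψ0 hψ2 => ?_⟩
  have t1 := h1 δ ⟨hδ.1, hδ.2.trans (min_le_left _ _)⟩ g hg A hA hAA ψ ⟨hψm, hψ0, hψ2⟩
  have t2 := (h2 δ ⟨hδ.1, hδ.2.trans (min_le_right _ _)⟩ g hg).1
  have t3 := XN_le_XT E hg.nice.rd hg.nice.cont hg.nonneg (V := 1) le_rfl
  have t4 : A * (3 * K) * (Dn (1 + a) b δ g + η / 2 / M) ≥ 0 := by
    refine mul_nonneg (by positivity) (by linarith)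
  have t5 : A * (ε * K * Pool.Agent.H87.PF.XN a m 1 g) ≤ A * (ε * K * (4 * XT a m 1 g)) :=
    mul_le_mul_of_nonneg_left (mul_le_mul_of_nonneg_left t3 (by positivity)) hA
  have t6 : A * (3 * K) * (η / 2 / M) ≤ η / 2 := by
    have e1 : A * (3 * K) ≤ M := by
      have : A ≤ |A₁| := hAA.trans (le_abs_self _)
      have := mul_le_mul_of_nonneg_right this (by positivity : (0 : ℝ) ≤ 3 * K)
      rw [hM]
      linarith
    calc A * (3 * K) * (η / 2 / M) ≤ M * (η / 2 / M) :=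
          mul_le_mul_of_nonneg_right e1 (by positivity)
      _ = η / 2 := by field_simp
  have e2 : A * ((1 / ε + 4 * K) * Dn (1 + a) b δ g + ε * (4 * K) * XT a m 1 g) =
      A * ((1 / ε + K) * Dn (1 + a) b δ g) + A * (3 * K) * Dn (1 + a) b δ g +
        A * (ε * K * (4 * XT a m 1 g)) := by ring
  rw [e2]
  have e3 : A * ((1 / ε + K) * Dn (1 + a) b δ g + ε * K * Pool.Agent.H87.PF.XN a m 1 g) =
      A * ((1 / ε + K) * Dn (1 + a) b δ g) + A * (ε * K * Pool.Agent.H87.PF.XN a m 1 g) := by ring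
  rw [e3] at t1
  have e4 : A * (3 * K) * (Dn (1 + a) b δ g + η / 2 / M) =
      A * (3 * K) * Dn (1 + a) b δ g + A * (3 * K) * (η / 2 / M) := by ring
  linarith

/-- block H': the pairs with `R ≤ R₁` -/
theorem err_low (HL : HypL d (1 + a) s b C Ca cb) (U : UE s a m q) :
    ∀ R₁ A₁ : ℝ, 1 ≤ R₁ → 0 ≤ A₁ → ∃ K₁ : ℝ, 0 ≤ K₁ ∧ ∀ ε : ℝ, 0 < ε → ε ≤ 1 →
      ∀ (Cl : ℕ → ℝ), ∀ η > 0, ∃ δ₀ > 0, ∀ δ ∈ Ioc (0 : ℝ) δ₀, ∀ g : Vec d → ℝ, UNice Cl g →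
      ∀ᶠ ε' in 𝓝[>] (0 : ℝ), ∀ ψ : Vec d → ℝ, Measurable ψ → PG ψ →
      (∀ w w', jb w ≤ R₁ → jb w' ≤ R₁ → |ψ w - ψ w'| ≤ A₁ * len (w - w') ^ m) →
      |(1 / 2) * ∫ p in {p : Vec d × Vec d | RR p.1 p.2 ≤ R₁}, g p.1 * g p.2 * ainc (1 + a) b ε' ψ p.1 p.2| ≤
        K₁ / ε * Dn (1 + a) b δ g + ε * K₁ * XT a m 1 g + η := by
  exact err_hol HL.H (eq_of U) U.hm

end Pool.Agent.H87.PG
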