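import Pool.Agent.H87.PG.XNm
import Pool.Agent.H87.PF.AngC
import Pool.Agent.H87.PE.Coe
import Pool.Agent.H87.PE.Cs

/-!
# Module AngM: angular integrals of the increments of Hölder functions with an exponent `m > 2s`

`y = 1 - cosTh v w σ ∈ [0,2]`, `N = nsq (v-w) > 0`, `L = len (v-w)`, `len (v'-v)² = N y/2`, so `len (v'-v)^m ≤ (N y)^(m/2)`.
* `ang_sqm`: `dX² ≤ 4 A² (N y)^m` for pairs with `R ≤ R₁`, `ker_full` with `τ = m`, `L^(2m) ≤ (2R₁)^m L^m ≤ 2R₁ L^m`.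
* `ang_abm`: `|dX| ≤ 2 A (N y)^(m/2)`, `ker_full` with `τ = m/2 > s`.
* `ang_bdm`: `(ψ' - ψ)² ≤ 2A |ψ' - ψ| ≤ 2A² (N y)^(m/2)`.
-/

set_option autoImplicit false

open MeasureTheory Set Filter Topology Pool.Agent.H25.Kin Pool.Agent.H48.PL
open Pool.Agent.H48.PI (om)
open Pool.Agent.H87.PE Pool.Agent.H87.PF

namespace Pool.Agent.H87.PG

variable {d : ℕ} {s a m C Ca : ℝ} {b : ℝ → ℝ}

private lemma len_rpow_le {x y : Vec d} {t p : ℝ} (ht : 0 ≤ t) (hp : 0 ≤ p)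
    (h : nsq x = nsq y * (t / 2)) : len x ^ p ≤ (nsq y * t) ^ (p / 2) := by
  have hy : 0 ≤ nsq y := sq_nonneg' y
  have h1 : len x ^ p = (nsq y * (t / 2)) ^ (p / 2) := by
    rw [← h, ← len_sq, ← Real.rpow_natCast, ← Real.rpow_mul (len_nonneg x)]
    congr 1
    push_cast
    ring
  rw [h1]
  refine Real.rpow_le_rpow (mul_nonneg hy (by linarith)) ?_ (by linarith)
  exact mul_le_mul_of_nonneg_left (by linarith) hy

private lemma nsq_rpow (x : Vec d) (p : ℝ) : nsq x ^ p = len x ^ (2 * p) := by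
  rw [← len_sq, ← Real.rpow_natCast, ← Real.rpow_mul (len_nonneg x)]
  congr 1

private lemma nsq_symm (x y : Vec d) : nsq (x - y) = nsq (y - x) := by
  rw [← len_sq, ← len_sq]
  have h : len (x - y) = len (y - x) := by
    have e : x - y = -(y - x) := by abel
    rw [e, len_neg]
  rw [h]

private lemma half_sq {z p : ℝ} (hz : 0 ≤ z) : (z ^ (p / 2)) ^ 2 = z ^ p := by
  rw [← Real.rpow_natCast, ← Real.rpow_mul hz]
  congr 1
  push_cast
  ring

private lemma pst (v w σ : Vec d) (hvw : v ≠ w) (hσ : nsq σ = 1) :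
    nsq (v - post v w σ) = nsq (v - w) * ((1 - cosTh v w σ) / 2) := by
  rw [nsq_symm]
  exact nsq_post_sub hvw hσ

private lemma pst' (v w σ : Vec d) (hvw : v ≠ w) (hσ : nsq σ = 1) :
    nsq (w - post' v w σ) = nsq (v - w) * ((1 - cosTh v w σ) / 2) := by
  rw [nsq_symm]
  exact nsq_post'_sub hvw hσ

/-- Hölder on the ball -/
def HB (m R₁ A : ℝ) (ψ : Vec d → ℝ) : Prop :=
  ∀ w w' : Vec d, jb w ≤ R₁ → jb w' ≤ R₁ → |ψ w - ψ w'| ≤ A * len (w - w') ^ m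

private lemma inc {R₁ A : ℝ} (hA : 0 ≤ A) (hm : 0 ≤ m) {ψ : Vec d → ℝ} (h : HB m R₁ A ψ)
    {v w x y : Vec d} {t : ℝ} (ht : 0 ≤ t) (hx : jb x ≤ R₁) (hy : jb y ≤ R₁)
    (hn : nsq (x - y) = nsq (v - w) * (t / 2)) :
    |ψ x - ψ y| ≤ A * (nsq (v - w) * t) ^ (m / 2) :=
  (h x y hx hy).trans (mul_le_mul_of_nonneg_left (len_rpow_le ht hm hn) hA)

private lemma dX_abs {R₁ A : ℝ} (hA : 0 ≤ A) (hm : 0 ≤ m) {ψ : Vec d → ℝ} (h : HB m R₁ A ψ)
    {v w σ : Vec d} (hvw : v ≠ w) (hσ : nsq σ = 1) (hR : RR v w ≤ R₁) :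
    |dX ψ (v, w, σ)| ≤ 2 * A * (nsq (v - w) * (1 - cosTh v w σ)) ^ (m / 2) := by
  have hy := one_sub_cosTh_nonneg (v := v) (w := w) hσ
  have e1 := inc hA hm h hy ((jb_le_RR_left v w).trans hR)
    ((jb_post_le (v := v) (w := w) hσ).trans hR) (pst v w σ hvw hσ)
  have e2 := inc hA hm h hy ((jb_le_RR_right v w).trans hR)
    ((jb_post'_le (v := v) (w := w) hσ).trans hR) (pst' v w σ hvw hσ)
  have e3 : |dX ψ (v, w, σ)| ≤ |ψ v - ψ (post v w σ)| + |ψ w - ψ (post' v w σ)| := by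
    have : dX ψ (v, w, σ) = -((ψ v - ψ (post v w σ)) + (ψ w - ψ (post' v w σ))) := by
      unfold dX
      ring
    rw [this, abs_neg]
    exact abs_add_le _ _
  refine e3.trans ((add_le_add e1 e2).trans (le_of_eq (by ring)))

theorem ang_sqm (H : Hyp d (1 + a) s b C Ca) (hm : s < m) (hm1 : m ≤ 1) : ∃ K : ℝ, 0 ≤ K ∧
    ∀ R₁ A : ℝ, 1 ≤ R₁ → 0 ≤ A → ∀ ψ : Vec d → ℝ, HB m R₁ A ψ →
    ∀ ε : ℝ, 0 < ε → ∀ v w : Vec d, v ≠ w → RR v w ≤ R₁ →
    ∫ σ, kerB (1 + a) b ε v w σ * dX ψ (v, w, σ) ^ 2 ∂(surf d) ≤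
      K * A ^ 2 * R₁ * (len (v - w) ^ (1 + a) * len (v - w) ^ m) := by
  have hs := H.hs
  obtain ⟨K, hK, hk⟩ := ker_full H hm hm1
  refine ⟨8 * K, by positivity, fun R₁ A hR₁ hA ψ hψ ε hε v w hvw hR => ?_⟩
  obtain ⟨hi, hb⟩ := hk ε hε v w hvw
  have hL : 0 < len (v - w) := len_sub_pos.2 hvw
  have hle : ∫ σ, kerB (1 + a) b ε v w σ * dX ψ (v, w, σ) ^ 2 ∂(surf d) ≤
      ∫ σ, (4 * A ^ 2 * nsq (v - w) ^ m) *
        (kerB (1 + a) b ε v w σ * (1 - cosTh v w σ) ^ m) ∂(surf d) := by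
    refine integral_mono_of_nonneg ?_ (hi.const_mul _) ?_
    · filter_upwards [surf_ae] with σ hσ
      exact mul_nonneg (kerB_nonneg (γ := 1 + a) H.bd hε (v := v) (w := w) hσ) (sq_nonneg _)
    · filter_upwards [surf_ae] with σ hσ
      have hk0 := kerB_nonneg (γ := 1 + a) H.bd hε (v := v) (w := w) hσ
      have hy := one_sub_cosTh_nonneg (v := v) (w := w) hσ
      have hN : 0 ≤ nsq (v - w) * (1 - cosTh v w σ) := mul_nonneg (sq_nonneg' _) hy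
      have h5 := dX_abs hA (by linarith) hψ hvw hσ hR
      have h6 : dX ψ (v, w, σ) ^ 2 ≤ 4 * A ^ 2 * nsq (v - w) ^ m * (1 - cosTh v w σ) ^ m := by
        calc dX ψ (v, w, σ) ^ 2 = |dX ψ (v, w, σ)| ^ 2 := (sq_abs _).symm
          _ ≤ (2 * A * (nsq (v - w) * (1 - cosTh v w σ)) ^ (m / 2)) ^ 2 :=
            pow_le_pow_left₀ (abs_nonneg _) h5 2
          _ = 4 * A ^ 2 * ((nsq (v - w) * (1 - cosTh v w σ)) ^ (m / 2)) ^ 2 := by ring
          _ = 4 * A ^ 2 * (nsq (v - w) ^ m * (1 - cosTh v w σ) ^ m) := by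
            rw [half_sq hN, Real.mul_rpow (sq_nonneg' _) hy]
          _ = _ := by ring
      calc kerB (1 + a) b ε v w σ * dX ψ (v, w, σ) ^ 2
          ≤ kerB (1 + a) b ε v w σ * (4 * A ^ 2 * nsq (v - w) ^ m * (1 - cosTh v w σ) ^ m) :=
            mul_le_mul_of_nonneg_left h6 hk0
        _ = _ := by ring
  rw [integral_const_mul] at hle
  have hN0 : 0 ≤ nsq (v - w) ^ m := Real.rpow_nonneg (sq_nonneg' _) _
  have h7 : nsq (v - w) ^ m ≤ 2 * R₁ * len (v - w) ^ m := by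
    rw [nsq_rpow, two_mul, Real.rpow_add hL]
    refine mul_le_mul_of_nonneg_right ?_ (Real.rpow_nonneg hL.le _)
    calc len (v - w) ^ m ≤ (2 * R₁) ^ m :=
          Real.rpow_le_rpow hL.le ((len_le_two v w).trans (by linarith)) (by linarith)
      _ ≤ (2 * R₁) ^ (1 : ℝ) := Real.rpow_le_rpow_of_exponent_le (by linarith) hm1
      _ = 2 * R₁ := Real.rpow_one _
  have hLa : 0 ≤ len (v - w) ^ (1 + a) := Real.rpow_nonneg hL.le _
  calc ∫ σ, kerB (1 + a) b ε v w σ * dX ψ (v, w, σ) ^ 2 ∂(surf d)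
      ≤ (4 * A ^ 2 * nsq (v - w) ^ m) *
        ∫ σ, kerB (1 + a) b ε v w σ * (1 - cosTh v w σ) ^ m ∂(surf d) := hle
    _ ≤ (4 * A ^ 2 * nsq (v - w) ^ m) * (K * len (v - w) ^ (1 + a)) :=
      mul_le_mul_of_nonneg_left hb (by positivity)
    _ = 4 * A ^ 2 * K * len (v - w) ^ (1 + a) * nsq (v - w) ^ m := by ring
    _ ≤ 4 * A ^ 2 * K * len (v - w) ^ (1 + a) * (2 * R₁ * len (v - w) ^ m) :=
      mul_le_mul_of_nonneg_left h7 (by positivity)
    _ = _ := by ring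

theorem ang_abm (H : Hyp d (1 + a) s b C Ca) (hm : 2 * s < m) (hm1 : m ≤ 1) : ∃ K : ℝ, 0 ≤ K ∧
    ∀ R₁ A : ℝ, 1 ≤ R₁ → 0 ≤ A → ∀ ψ : Vec d → ℝ, HB m R₁ A ψ →
    ∀ ε : ℝ, 0 < ε → ∀ v w : Vec d, v ≠ w → RR v w ≤ R₁ →
    |ainc (1 + a) b ε ψ v w| ≤ K * A * (len (v - w) ^ (1 + a) * len (v - w) ^ m) := by
  have hs := H.hs
  obtain ⟨K, hK, hk⟩ := ker_full H (τ := m / 2) (by linarith) (by linarith)
  refine ⟨2 * K, by positivity, fun R₁ A hR₁ hA ψ hψ ε hε v w hvw hR => ?_⟩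
  obtain ⟨hi, hb⟩ := hk ε hε v w hvw
  have hL : 0 < len (v - w) := len_sub_pos.2 hvw
  have hN0 : 0 ≤ nsq (v - w) ^ (m / 2) := Real.rpow_nonneg (sq_nonneg' _) _
  have hle : |ainc (1 + a) b ε ψ v w| ≤
      ∫ σ, (2 * A * nsq (v - w) ^ (m / 2)) *
        (kerB (1 + a) b ε v w σ * (1 - cosTh v w σ) ^ (m / 2)) ∂(surf d) := by
    unfold ainc
    rw [← Real.norm_eq_abs]
    refine norm_integral_le_of_norm_le (hi.const_mul _) ?_
    filter_upwards [surf_ae] with σ hσ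
    have hk0 := kerB_nonneg (γ := 1 + a) H.bd hε (v := v) (w := w) hσ
    have hy := one_sub_cosTh_nonneg (v := v) (w := w) hσ
    have h5 := dX_abs hA (by linarith) hψ hvw hσ hR
    have h6 : |dX ψ (v, w, σ)| ≤ 2 * A * nsq (v - w) ^ (m / 2) * (1 - cosTh v w σ) ^ (m / 2) := by
      refine h5.trans (le_of_eq ?_)
      rw [Real.mul_rpow (sq_nonneg' _) hy]
      ring
    rw [norm_mul, Real.norm_eq_abs, Real.norm_eq_abs, abs_of_nonneg hk0]
    calc kerB (1 + a) b ε v w σ * |ψ (post v w σ) + ψ (post' v w σ) - ψ v - ψ w|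
        ≤ kerB (1 + a) b ε v w σ *
          (2 * A * nsq (v - w) ^ (m / 2) * (1 - cosTh v w σ) ^ (m / 2)) :=
          mul_le_mul_of_nonneg_left h6 hk0
      _ = _ := by ring
  rw [integral_const_mul] at hle
  have e : nsq (v - w) ^ (m / 2) = len (v - w) ^ m := by
    rw [nsq_rpow]
    congr 1
    ring
  calc |ainc (1 + a) b ε ψ v w| ≤ (2 * A * nsq (v - w) ^ (m / 2)) *
        ∫ σ, kerB (1 + a) b ε v w σ * (1 - cosTh v w σ) ^ (m / 2) ∂(surf d) := hle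
    _ ≤ (2 * A * nsq (v - w) ^ (m / 2)) * (K * len (v - w) ^ (1 + a)) :=
      mul_le_mul_of_nonneg_left hb (by positivity)
    _ = _ := by rw [e]; ring

theorem ang_bdm (H : Hyp d (1 + a) s b C Ca) (hm : 2 * s < m) (hm1 : m ≤ 1) : ∃ K : ℝ, 0 ≤ K ∧
    ∀ A : ℝ, 0 ≤ A → ∀ ψ : Vec d → ℝ, (∀ w, |ψ w| ≤ A) →
    (∀ w w', |ψ w - ψ w'| ≤ A * len (w - w') ^ m) →
    ∀ ε : ℝ, 0 < ε → ∀ v w : Vec d, v ≠ w →
    ∫ σ, kerB (1 + a) b ε v w σ * (ψ (post v w σ) - ψ v) ^ 2 ∂(surf d) ≤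
      K * A ^ 2 * (len (v - w) ^ (1 + a) * len (v - w) ^ m) := by
  have hs := H.hs
  obtain ⟨K, hK, hk⟩ := ker_full H (τ := m / 2) (by linarith) (by linarith)
  refine ⟨2 * K, by positivity, fun A hA ψ hψA hψ ε hε v w hvw => ?_⟩
  obtain ⟨hi, hb⟩ := hk ε hε v w hvw
  have hN0 : 0 ≤ nsq (v - w) ^ (m / 2) := Real.rpow_nonneg (sq_nonneg' _) _
  have hle : ∫ σ, kerB (1 + a) b ε v w σ * (ψ (post v w σ) - ψ v) ^ 2 ∂(surf d) ≤
      ∫ σ, (2 * A ^ 2 * nsq (v - w) ^ (m / 2)) *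
        (kerB (1 + a) b ε v w σ * (1 - cosTh v w σ) ^ (m / 2)) ∂(surf d) := by
    refine integral_mono_of_nonneg ?_ (hi.const_mul _) ?_
    · filter_upwards [surf_ae] with σ hσ
      exact mul_nonneg (kerB_nonneg (γ := 1 + a) H.bd hε (v := v) (w := w) hσ) (sq_nonneg _)
    · filter_upwards [surf_ae] with σ hσ
      have hk0 := kerB_nonneg (γ := 1 + a) H.bd hε (v := v) (w := w) hσ
      have hy := one_sub_cosTh_nonneg (v := v) (w := w) hσ
      have e1 : |ψ v - ψ (post v w σ)| ≤ A * (nsq (v - w) * (1 - cosTh v w σ)) ^ (m / 2) :=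
        (hψ _ _).trans (mul_le_mul_of_nonneg_left
          (len_rpow_le hy (by linarith) (pst v w σ hvw hσ)) hA)
      have e4 : |ψ v - ψ (post v w σ)| ≤ 2 * A := by
        have h5 := abs_sub (ψ v) (ψ (post v w σ))
        have h6 := hψA (post v w σ)
        have h7 := hψA v
        linarith
      have e5 : (ψ (post v w σ) - ψ v) ^ 2 ≤
          2 * A ^ 2 * nsq (v - w) ^ (m / 2) * (1 - cosTh v w σ) ^ (m / 2) := by
        calc (ψ (post v w σ) - ψ v) ^ 2 = |ψ v - ψ (post v w σ)| * |ψ v - ψ (post v w σ)| := by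
              rw [← sq, sq_abs]
              ring
          _ ≤ (2 * A) * (A * (nsq (v - w) * (1 - cosTh v w σ)) ^ (m / 2)) :=
              mul_le_mul e4 e1 (abs_nonneg _) (by linarith)
          _ = _ := by
              rw [Real.mul_rpow (sq_nonneg' _) hy]
              ring
      calc kerB (1 + a) b ε v w σ * (ψ (post v w σ) - ψ v) ^ 2
          ≤ kerB (1 + a) b ε v w σ *
            (2 * A ^ 2 * nsq (v - w) ^ (m / 2) * (1 - cosTh v w σ) ^ (m / 2)) :=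
            mul_le_mul_of_nonneg_left e5 hk0
        _ = _ := by ring
  rw [integral_const_mul] at hle
  have e : nsq (v - w) ^ (m / 2) = len (v - w) ^ m := by
    rw [nsq_rpow]
    congr 1
    ring
  calc _ ≤ (2 * A ^ 2 * nsq (v - w) ^ (m / 2)) *
        ∫ σ, kerB (1 + a) b ε v w σ * (1 - cosTh v w σ) ^ (m / 2) ∂(surf d) := hle
    _ ≤ (2 * A ^ 2 * nsq (v - w) ^ (m / 2)) * (K * len (v - w) ^ (1 + a)) :=
      mul_le_mul_of_nonneg_left hb (by positivity)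
    _ = _ := by rw [e]; ring

/-! ### integrals over the pairs -/

/-- `|V|^(1+a) |V|^m ≤ wN a m 1` -/
lemma lenm_le_wN (v w : Vec d) :
    len (v - w) ^ (1 + a) * len (v - w) ^ m ≤ wN a m 1 (v, w) := by
  have hL := len_nonneg (v - w)
  have h1 : 0 ≤ len (v - w) ^ (1 + a) := Real.rpow_nonneg hL _
  show _ ≤ len (v - w) ^ (1 + a) * (1 + len (v - w) ^ m) * om m 1 (RR v w)
  rw [om_one (one_le_RR v w), mul_one]
  nlinarith

lemma len_le_wN (v w : Vec d) : len (v - w) ^ (1 + a) ≤ wN a m 1 (v, w) := by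
  have hL := len_nonneg (v - w)
  have h1 : 0 ≤ len (v - w) ^ (1 + a) := Real.rpow_nonneg hL _
  have h2 : 0 ≤ len (v - w) ^ m := Real.rpow_nonneg hL _
  show _ ≤ len (v - w) ^ (1 + a) * (1 + len (v - w) ^ m) * om m 1 (RR v w)
  rw [om_one (one_le_RR v w), mul_one]
  nlinarith

/-- the near pairs -/
theorem int_nrm (H : Hyp d (1 + a) s b C Ca) (E : EQ a m) (hm : s < m) : ∃ K : ℝ, 0 ≤ K ∧
    ∀ G : Vec d → ℝ, RD G → Continuous G → (∀ v, 0 ≤ G v) → ∀ ε : ℝ, 0 < ε →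
    ∀ R₁ : ℝ, 1 ≤ R₁ → ∀ A : ℝ, 0 ≤ A → ∀ ψ : Vec d → ℝ, Measurable ψ → PG ψ → HB m R₁ A ψ →
    ∫ p in Sn d R₁, kx (1 + a) b ε G p * dX ψ p ^ 2 ∂(mu3 d) ≤ K * A ^ 2 * R₁ * XN a m 1 G := by
  obtain ⟨K, hK0, hK⟩ := ang_sqm H hm E.hβ1.le
  refine ⟨K, hK0, fun G hG hGc h0 ε hε R₁ hR₁ A hA ψ hψm hψp hψ => ?_⟩
  have hXm : Measurable fun p : Vec d × Vec d × Vec d => dX ψ p ^ 2 := (dX_meas hψm).pow_const 2
  have hXB : PB fun p : Vec d × Vec d × Vec d => dX ψ p ^ 2 := by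
    have := PB_mul (dX_PB hψp) (dX_PB hψp)
    simpa only [sq] using this
  have hc : 0 ≤ K * A ^ 2 * R₁ := by positivity
  have e := maj H hε hG hGc hXm hXB (Sn_meas R₁) 0
    (M := fun q => K * A ^ 2 * R₁ * (G q.1 * G q.2 * wN a m 1 q))
    ((wN_int E hG hGc le_rfl).const_mul _) ?_
  · refine e.trans (le_of_eq ?_)
    rw [integral_const_mul]
    rfl
  · intro v w hvw _ _
    have hGG : 0 ≤ G v * G w := mul_nonneg (h0 v) (h0 w)
    by_cases hR : RR v w ≤ R₁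
    · have hset : {σ : Vec d | (v, w, σ) ∈ Sn d R₁} = univ := by
        ext σ
        simp only [mem_ofPred_eq, mem_univ, iff_true]
        exact hR
      rw [hset, Measure.restrict_univ]
      have h5 := hK R₁ A hR₁ hA ψ hψ ε hε v w hvw hR
      have h6 := mul_le_mul_of_nonneg_left (lenm_le_wN (a := a) (m := m) v w) hc
      refine (mul_le_mul_of_nonneg_left (h5.trans h6) hGG).trans (le_of_eq ?_)
      ring
    · have hset : {σ : Vec d | (v, w, σ) ∈ Sn d R₁} = ∅ := by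
        ext σ
        simp only [mem_ofPred_eq, mem_empty_iff_false, iff_false]
        exact hR
      rw [hset, setIntegral_empty, mul_zero]
      exact mul_nonneg hc (mul_nonneg hGG (wN_nonneg le_rfl _))

/-- bounded Hölder functions -/
theorem int_bdm (H : Hyp d (1 + a) s b C Ca) (E : EQ a m) (hm : 2 * s < m) : ∃ K : ℝ, 0 ≤ K ∧
    ∀ G : Vec d → ℝ, RD G → Continuous G → (∀ v, 0 ≤ G v) → ∀ ε : ℝ, 0 < ε →
    ∀ A : ℝ, 0 ≤ A → ∀ ψ : Vec d → ℝ, Measurable ψ → (∀ w, |ψ w| ≤ A) →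
    (∀ w w', |ψ w - ψ w'| ≤ A * len (w - w') ^ m) →
    ∫ p, kx (1 + a) b ε G p * (ψ (post p.1 p.2.1 p.2.2) - ψ p.1) ^ 2 ∂(mu3 d) ≤
      K * A ^ 2 * XN a m 1 G := by
  obtain ⟨K, hK0, hK⟩ := ang_bdm H hm E.hβ1.le
  refine ⟨K, hK0, fun G hG hGc h0 ε hε A hA ψ hψm hψA hψ => ?_⟩
  have hXm : Measurable fun p : Vec d × Vec d × Vec d =>
      (ψ (post p.1 p.2.1 p.2.2) - ψ p.1) ^ 2 := by
    have hp : Measurable fun p : Vec d × Vec d × Vec d => post p.1 p.2.1 p.2.2 :=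
      continuous_post.measurable
    exact ((hψm.comp hp).sub (hψm.comp measurable_fst)).pow_const 2
  have hXB : PB fun p : Vec d × Vec d × Vec d => (ψ (post p.1 p.2.1 p.2.2) - ψ p.1) ^ 2 := by
    refine ⟨0, (2 * A) ^ 2, sq_nonneg _, fun v w σ _ => ?_⟩
    rw [pow_zero, mul_one, abs_of_nonneg (sq_nonneg _)]
    have h4 := abs_le.1 (hψA (post v w σ))
    have h5 := abs_le.1 (hψA v)
    exact sq_le_sq' (by linarith) (by linarith)
  have hc : 0 ≤ K * A ^ 2 := by positivity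
  have e := maj H hε hG hGc hXm hXB MeasurableSet.univ 0
    (M := fun q => K * A ^ 2 * (G q.1 * G q.2 * wN a m 1 q))
    ((wN_int E hG hGc le_rfl).const_mul _) ?_
  · rw [Measure.restrict_univ] at e
    refine e.trans (le_of_eq ?_)
    rw [integral_const_mul]
    rfl
  · intro v w hvw _ _
    have hGG : 0 ≤ G v * G w := mul_nonneg (h0 v) (h0 w)
    have hset : {σ : Vec d | (v, w, σ) ∈ (univ : Set (Vec d × Vec d × Vec d))} = univ := by
      ext σ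
      simp
    rw [hset, Measure.restrict_univ]
    have h5 := hK A hA ψ hψA hψ ε hε v w hvw
    have h6 := mul_le_mul_of_nonneg_left (lenm_le_wN (a := a) (m := m) v w) hc
    refine (mul_le_mul_of_nonneg_left (h5.trans h6) hGG).trans (le_of_eq ?_)
    ring

theorem int_ngm (H : Hyp d (1 + a) s b C Ca) (E : EQ a m) : ∃ K : ℝ, 0 ≤ K ∧
    ∀ G : Vec d → ℝ, RD G → Continuous G → (∀ v, 0 ≤ G v) → ∀ ε : ℝ, 0 < ε →
    ∫ p in (Hf d)ᶜ, kx (1 + a) b ε G p ∂(mu3 d) ≤ K * XN a m 1 G := by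
  obtain ⟨K, hK0, hK⟩ := ang_ng H
  refine ⟨K, hK0, fun G hG hGc hG0 ε hε => ?_⟩
  have hXB : PB fun _ : Vec d × Vec d × Vec d => (1 : ℝ) :=
    ⟨0, 1, zero_le_one, fun v w σ _ => by simp⟩
  have e2 := maj H hε hG hGc (X := fun _ => (1 : ℝ)) measurable_const hXB (Hf_meas (d := d)).compl
    0 (M := fun q => K * (G q.1 * G q.2 * wN a m 1 q)) ((wN_int E hG hGc le_rfl).const_mul _) ?_
  · simp only [mul_one] at e2
    refine e2.trans (le_of_eq ?_)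
    rw [integral_const_mul]
    rfl
  · intro v w hvw _ _
    have hGG : 0 ≤ G v * G w := mul_nonneg (hG0 v) (hG0 w)
    have hset : {σ : Vec d | (v, w, σ) ∈ (Hf d)ᶜ} = {σ : Vec d | cosTh v w σ < 0} := by
      ext σ
      show ¬ (0 ≤ cosTh v w σ) ↔ cosTh v w σ < 0
      exact not_le
    rw [hset]
    simp only [mul_one]
    have h4 := mul_le_mul_of_nonneg_left (len_le_wN (a := a) (m := m) v w) hK0
    have h5 := mul_le_mul_of_nonneg_left ((hK ε hε v w hvw).trans h4) hGG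
    refine h5.trans (le_of_eq ?_)
    ring

theorem GG_lem (E : EQ a m) {G : Vec d → ℝ} (hG : RD G) (hGc : Continuous G)
    (h0 : ∀ v, 0 ≤ G v) : GG (1 + a) G ≤ XN a m 1 G := by
  unfold GG XN
  refine integral_mono_of_nonneg (Eventually.of_forall fun q => ?_) (wN_int E hG hGc le_rfl)
    (Eventually.of_forall fun q => ?_)
  · exact mul_nonneg (mul_nonneg (h0 _) (h0 _)) (Real.rpow_nonneg (len_nonneg _) _)
  · exact mul_le_mul_of_nonneg_left (len_le_wN q.1 q.2) (mul_nonneg (h0 _) (h0 _))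

end Pool.Agent.H87.PG
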