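import Pool.Agent.H87.PG.AngM
import Pool.Agent.H87.PE.Tra
import Pool.Agent.H82.CM.LowK

/-!
# Module HErr: the pairs with `R ≤ R₁` (block H' of P-UP)

`G = g + δ gau`, `F q = ∫ B_e dX ψ` on `Sn`. `∫∫_{R ≤ R₁} g g_* ainc = ∫ g g_* F`, `∫ G G_* F = ∫_{Sn} kx dX ψ` (`fub`), `cs_cut` with `lam = ε`, `int_nrm`, `Pc_lim`, `XN_reg`;
`|∫ (G G_* - g g_*) F| ≤ K₃ A₁ (XN(G) - XN(g))` (`ang_abm`).
-/

set_option autoImplicit false

open MeasureTheory Set Filter Topology Pool.Agent.H25.Kin Pool.Agent.H48.PL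
open Pool.Agent.H82.CM
open Pool.Agent.H15.AV (gau UNice)
open Pool.Agent.H48.PI (om Dn)
open Pool.Agent.H48.PW (XT)
open Pool.Agent.H87.PE Pool.Agent.H87.PF

namespace Pool.Agent.H87.PG

variable {d : ℕ} {s a m C Ca cb : ℝ} {b : ℝ → ℝ}

/-- the angular integral on the pairs with `R ≤ R₁` -/
private noncomputable def FF (a : ℝ) (b : ℝ → ℝ) (ε R₁ : ℝ) (ψ : Vec d → ℝ) (q : Vec d × Vec d) : ℝ :=
  ∫ σ in {σ : Vec d | (q.1, q.2, σ) ∈ Sn d R₁}, kerB (1 + a) b ε q.1 q.2 σ * dX ψ (q.1, q.2, σ)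
    ∂(surf d)

private lemma FF_eq (a : ℝ) (b : ℝ → ℝ) (ε R₁ : ℝ) (ψ : Vec d → ℝ) (q : Vec d × Vec d) :
    FF a b ε R₁ ψ q = {p : Vec d × Vec d | RR p.1 p.2 ≤ R₁}.indicator
      (fun p => ainc (1 + a) b ε ψ p.1 p.2) q := by
  unfold FF
  by_cases hR : RR q.1 q.2 ≤ R₁
  · have hset : {σ : Vec d | (q.1, q.2, σ) ∈ Sn d R₁} = univ := by
      ext σ
      simp only [mem_ofPred_eq, mem_univ, iff_true]
      exact hR
    rw [hset, Measure.restrict_univ,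
      indicator_of_mem (show q ∈ {p : Vec d × Vec d | RR p.1 p.2 ≤ R₁} from hR)]
    rfl
  · have hset : {σ : Vec d | (q.1, q.2, σ) ∈ Sn d R₁} = ∅ := by
      ext σ
      simp only [mem_ofPred_eq, mem_empty_iff_false, iff_false]
      exact hR
    rw [hset, setIntegral_empty,
      indicator_of_notMem (show q ∉ {p : Vec d × Vec d | RR p.1 p.2 ≤ R₁} from hR)]

private lemma low_arith {u e K₁ L T D X P XG x Q η' : ℝ} (hu : 1 ≤ u) (he : 0 ≤ e) (he1 : e ≤ 1)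
    (hL : 0 ≤ L) (hT : 0 ≤ T) (hη : 0 ≤ η') (hD : -η' ≤ D) (hX : 0 ≤ X)
    (hK₁ : K₁ = 1 + L) (hQ : Q ≤ u * P + e / 4 * (L * XG) + T * (XG - x))
    (hP : P ≤ D + η') (h1 : XG ≤ x + η') (h2 : x ≤ 4 * X) :
    1 / 2 * Q ≤ K₁ * u * D + e * K₁ * X + (K₁ * u + K₁ + T + 1) * η' := by
  have a1 : u * P ≤ u * (D + η') := mul_le_mul_of_nonneg_left hP (by linarith)
  have a2 : L * XG ≤ L * (4 * X + η') := mul_le_mul_of_nonneg_left (by linarith) hL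
  have a3 : e / 4 * (L * XG) ≤ e / 4 * (L * (4 * X + η')) :=
    mul_le_mul_of_nonneg_left a2 (by linarith)
  have a4 : T * (XG - x) ≤ T * η' := mul_le_mul_of_nonneg_left (by linarith) hT
  have a5 : 0 ≤ (K₁ - 1 / 2) * u * (D + η') := by
    refine mul_nonneg (mul_nonneg ?_ (by linarith)) (by linarith)
    rw [hK₁]
    linarith
  have a6 : 0 ≤ e * L * X := by positivity
  have a7 : 0 ≤ e * X := mul_nonneg he hX
  have a8 : e * L * η' ≤ L * η' := by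
    refine mul_le_mul_of_nonneg_right ?_ hη
    exact mul_le_of_le_one_left hL he1
  have a9 : 0 ≤ L * η' := mul_nonneg hL hη
  have a10 : 0 ≤ T * η' := mul_nonneg hT hη
  rw [hK₁] at a5 ⊢
  nlinarith [a1, a3, a4, a5, a6, a7, a8, a9, a10]

theorem err_hol (H : Hyp d (1 + a) s b C Ca) (E : EQ a m) (hm : 2 * s < m) :
    ∀ R₁ A₁ : ℝ, 1 ≤ R₁ → 0 ≤ A₁ → ∃ K₁ : ℝ, 0 ≤ K₁ ∧ ∀ ε : ℝ, 0 < ε → ε ≤ 1 →
      ∀ (Cl : ℕ → ℝ), ∀ η > 0, ∃ δ₀ > 0, ∀ δ ∈ Ioc (0 : ℝ) δ₀, ∀ g : Vec d → ℝ, UNice Cl g →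
      ∀ᶠ ε' in 𝓝[>] (0 : ℝ), ∀ ψ : Vec d → ℝ, Measurable ψ → PG ψ →
      (∀ w w', jb w ≤ R₁ → jb w' ≤ R₁ → |ψ w - ψ w'| ≤ A₁ * len (w - w') ^ m) →
      |(1 / 2) * ∫ p in {p : Vec d × Vec d | RR p.1 p.2 ≤ R₁},
        g p.1 * g p.2 * ainc (1 + a) b ε' ψ p.1 p.2| ≤
        K₁ / ε * Dn (1 + a) b δ g + ε * K₁ * XT a m 1 g + η := by
  intro R₁ A₁ hR₁ hA₁
  have hs := H.hs
  obtain ⟨K₂, hK₂, hnr⟩ := int_nrm H E (by linarith : s < m)
  obtain ⟨K₃, hK₃, hab⟩ := ang_abm H hm E.hβ1.le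
  have hL : 0 ≤ K₂ * A₁ ^ 2 * R₁ := by positivity
  have hT : 0 ≤ K₃ * A₁ := mul_nonneg hK₃ hA₁
  obtain ⟨K₁, hK₁⟩ : ∃ K₁ : ℝ, K₁ = 1 + K₂ * A₁ ^ 2 * R₁ := ⟨_, rfl⟩
  have hK₁0 : 0 ≤ K₁ := by rw [hK₁]; linarith
  refine ⟨K₁, hK₁0, fun ε hε hε1 Cl η hη => ?_⟩
  have hu : 1 ≤ 1 / ε := by
    rw [le_div_iff₀ hε]
    linarith
  have hu0 : 0 ≤ 1 / ε := by linarith
  obtain ⟨B, hB⟩ : ∃ B : ℝ, B = K₁ * (1 / ε) + K₁ + K₃ * A₁ + 1 := ⟨_, rfl⟩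
  have hB0 : 0 < B := by rw [hB]; positivity
  obtain ⟨η', hη'⟩ : ∃ η' : ℝ, η' = η / B := ⟨_, rfl⟩
  have hη'0 : 0 < η' := by rw [hη']; exact div_pos hη hB0
  have hηB : B * η' = η := by
    rw [hη']
    field_simp
  obtain ⟨δb, hδb, hδbh, hPc⟩ := Pc_lim H Cl hη'0
  obtain ⟨δc, hδc, hXN⟩ := XN_reg (d := d) E Cl hη'0
  refine ⟨min δb δc, lt_min hδb hδc, fun δ hδ g hg => ?_⟩
  have hd0 : 0 < δ := hδ.1
  have hdb : δ ≤ δb := hδ.2.trans (min_le_left _ _)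
  have hdc : δ ≤ δc := hδ.2.trans (min_le_right _ _)
  have hd1 : δ ≤ 1 := by linarith
  have hG := gd_reg hg hd0 hd1
  have hG0 : ∀ v, 0 ≤ g v + δ * gau v := fun v => (hG.pos v).le
  obtain ⟨hDn, hev⟩ := hPc δ ⟨hd0, hdb⟩ g hg
  have hx1 := hXN δ ⟨hd0, hdc⟩ g hg 1 le_rfl
  have hx2 := XN_le_XT E hg.nice.rd hg.nice.cont hg.nonneg (V := 1) le_rfl
  have hX0 : 0 ≤ XT a m 1 g := XT_nonneg hg.nonneg le_rfl
  filter_upwards [hev, self_mem_nhdsWithin] with e hPe he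
  have he0 : 0 < e := he
  intro ψ hψm hψp hψ
  have hXm := dX_meas hψm
  have hXB := dX_PB hψp
  obtain ⟨iG, eG⟩ := fub H he0 hG.rd hG.cont hXm hXB (Sn_meas R₁)
  obtain ⟨ig, eg⟩ := fub H he0 hg.nice.rd hg.nice.cont hXm hXB (Sn_meas R₁)
  have t1 := cs_cut H he0 hG hψp hψm (Sn_meas R₁)
    (fun v w σ hvw hσ => Sn_coll R₁ hvw hσ) hε
  have t2 := hnr _ hG.rd hG.cont hG0 e he0 R₁ hR₁ A₁ hA₁ ψ hψm hψp hψ
  have e1 : ∫ p in {p : Vec d × Vec d | RR p.1 p.2 ≤ R₁},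
      g p.1 * g p.2 * ainc (1 + a) b e ψ p.1 p.2 = ∫ q, g q.1 * g q.2 * FF a b e R₁ ψ q := by
    rw [← integral_indicator (measurableSet_le RR_cont.measurable measurable_const)]
    refine integral_congr_ae (Eventually.of_forall fun q => ?_)
    show _ = g q.1 * g q.2 * FF a b e R₁ ψ q
    rw [FF_eq]
    by_cases hR : RR q.1 q.2 ≤ R₁
    · rw [indicator_of_mem (show q ∈ {p : Vec d × Vec d | RR p.1 p.2 ≤ R₁} from hR),
        indicator_of_mem (show q ∈ {p : Vec d × Vec d | RR p.1 p.2 ≤ R₁} from hR)]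
    · rw [indicator_of_notMem (show q ∉ {p : Vec d × Vec d | RR p.1 p.2 ≤ R₁} from hR),
        indicator_of_notMem (show q ∉ {p : Vec d × Vec d | RR p.1 p.2 ≤ R₁} from hR), mul_zero]
  have jG : Integrable fun q : Vec d × Vec d =>
      (g q.1 + δ * gau q.1) * (g q.2 + δ * gau q.2) * FF a b e R₁ ψ q := iG
  have jg : Integrable fun q : Vec d × Vec d => g q.1 * g q.2 * FF a b e R₁ ψ q := ig
  have hFF : ∀ q : Vec d × Vec d, q.1 ≠ q.2 → |FF a b e R₁ ψ q| ≤ K₃ * A₁ * wN a m 1 q := by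
    intro q hq
    rw [FF_eq]
    by_cases hR : RR q.1 q.2 ≤ R₁
    · rw [indicator_of_mem (show q ∈ {p : Vec d × Vec d | RR p.1 p.2 ≤ R₁} from hR)]
      have h5 := hab R₁ A₁ hR₁ hA₁ ψ hψ e he0 q.1 q.2 hq hR
      exact h5.trans (mul_le_mul_of_nonneg_left (lenm_le_wN (a := a) (m := m) q.1 q.2) hT)
    · rw [indicator_of_notMem (show q ∉ {p : Vec d × Vec d | RR p.1 p.2 ≤ R₁} from hR), abs_zero]
      exact mul_nonneg hT (wN_nonneg le_rfl _)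
  have iN := wN_int (V := 1) E hG.rd hG.cont le_rfl
  have in' := wN_int (V := 1) E hg.nice.rd hg.nice.cont le_rfl
  have e2 : |(∫ q : Vec d × Vec d, g q.1 * g q.2 * FF a b e R₁ ψ q) -
      ∫ q : Vec d × Vec d, (g q.1 + δ * gau q.1) * (g q.2 + δ * gau q.2) * FF a b e R₁ ψ q| ≤
      K₃ * A₁ * (XN a m 1 (fun v => g v + δ * gau v) - XN a m 1 g) := by
    rw [← integral_sub jg jG, ← Real.norm_eq_abs]
    have iD := (iN.sub in').const_mul (K₃ * A₁)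
    refine (norm_integral_le_of_norm_le iD ?_).trans (le_of_eq ?_)
    · filter_upwards [ae_off H.hd1 (0 : Vec d)] with q hq
      have h5 := hFF q hq.1
      have m1 : 0 < gau q.1 := Real.exp_pos _
      have m2 : 0 < gau q.2 := Real.exp_pos _
      have g1 := hg.nonneg q.1
      have g2 := hg.nonneg q.2
      have hD : 0 ≤ (g q.1 + δ * gau q.1) * (g q.2 + δ * gau q.2) - g q.1 * g q.2 := by
        have : (g q.1 + δ * gau q.1) * (g q.2 + δ * gau q.2) - g q.1 * g q.2 =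
          g q.1 * (δ * gau q.2) + δ * gau q.1 * g q.2 + δ * gau q.1 * (δ * gau q.2) := by ring
        rw [this]
        positivity
      have e3 : g q.1 * g q.2 * FF a b e R₁ ψ q -
          (g q.1 + δ * gau q.1) * (g q.2 + δ * gau q.2) * FF a b e R₁ ψ q =
          -(((g q.1 + δ * gau q.1) * (g q.2 + δ * gau q.2) - g q.1 * g q.2) *
            FF a b e R₁ ψ q) := by ring
      rw [e3, norm_neg, Real.norm_eq_abs, abs_mul, abs_of_nonneg hD]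
      refine (mul_le_mul_of_nonneg_left h5 hD).trans (le_of_eq ?_)
      show _ = K₃ * A₁ * ((g q.1 + δ * gau q.1) * (g q.2 + δ * gau q.2) * wN a m 1 q -
        g q.1 * g q.2 * wN a m 1 q)
      ring
    · rw [integral_const_mul]
      congr 1
      exact integral_sub iN in'
  have e4 : ∫ p in Sn d R₁, kx (1 + a) b e (fun v => g v + δ * gau v) p * dX ψ p ∂(mu3 d) =
      ∫ q : Vec d × Vec d, (g q.1 + δ * gau q.1) * (g q.2 + δ * gau q.2) * FF a b e R₁ ψ q := eG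
  rw [e4] at t1
  rw [e1, abs_mul, abs_of_pos (by norm_num : (0 : ℝ) < 1 / 2)]
  have hQ : |∫ q : Vec d × Vec d, g q.1 * g q.2 * FF a b e R₁ ψ q| ≤
      1 / ε * Pc (1 + a) b e (fun v => g v + δ * gau v) +
        ε / 4 * (K₂ * A₁ ^ 2 * R₁ * XN a m 1 (fun v => g v + δ * gau v)) +
        K₃ * A₁ * (XN a m 1 (fun v => g v + δ * gau v) - XN a m 1 g) := by
    have t3 := mul_le_mul_of_nonneg_left t2 (by positivity : (0 : ℝ) ≤ ε / 4)
    have t4 := abs_add_le ((∫ q : Vec d × Vec d, g q.1 * g q.2 * FF a b e R₁ ψ q) -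
      ∫ q : Vec d × Vec d, (g q.1 + δ * gau q.1) * (g q.2 + δ * gau q.2) * FF a b e R₁ ψ q)
      (∫ q : Vec d × Vec d, (g q.1 + δ * gau q.1) * (g q.2 + δ * gau q.2) * FF a b e R₁ ψ q)
    rw [sub_add_cancel] at t4
    linarith
  have fin := low_arith hu hε.le hε1 hL hT hη'0.le hDn hX0 hK₁ hQ hPe hx1 hx2
  have f1 : K₁ / ε = K₁ * (1 / ε) := by ring
  rw [← hB, hηB] at fin
  rw [f1]
  exact fin

end Pool.Agent.H87.PG
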