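import Pool.Agent.H87.PF.XTc
import Pool.Agent.H85.UP.Defs

/-!
# Module XNm: the weight `|V|^(1+a) (1 + |V|^m)` for any `0 < a < 1`, `0 < m < 1`

Copies of the proofs of H87/PF/WInt.lean and H87/PF/XTc.lean with less hypotheses (`EQ`), for P-UP (MP_c15324_an, `1 + 2s < γ`).
-/

set_option autoImplicit false

open MeasureTheory Set Filter Topology Pool.Agent.H25.Kin Pool.Agent.H48.PL
open Pool.Agent.H15.AV (gau UNice)
open Pool.Agent.H48.PI (om)
open Pool.Agent.H48.PW (XT)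
open Pool.Agent.H87.PF

namespace Pool.Agent.H87.PG

variable {d : ℕ} {s a β : ℝ}

/-- the conditions on the exponents -/
structure EQ (a β : ℝ) : Prop where
  ha : 0 < a
  a1 : a < 1
  β0 : 0 < β
  hβ1 : β < 1

private lemma wint_RR3 (v w : Vec d) :
    RR v w ^ 3 ≤ (2 * ((d : ℝ) + 1) ^ 2) ^ 3 * ((1 + ‖v‖) ^ 3 * (1 + ‖w‖) ^ 3) := by
  have hR1 := one_le_RR v w
  have hd0 : (0 : ℝ) ≤ d := Nat.cast_nonneg d
  have hwv := w_pos v
  have hww := w_pos w
  have h4 : RR v w ≤ 2 * ((d : ℝ) + 1) ^ 2 * ((1 + ‖v‖) * (1 + ‖w‖)) := by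
    have q1 := RR_le v w
    have q2 := jb_le_w v
    have q3 := jb_le_w w
    have q4 := one_le_w v
    have q5 := one_le_w w
    have q6 : 1 + ‖v‖ ≤ (1 + ‖v‖) * (1 + ‖w‖) := le_mul_of_one_le_right hwv.le q5
    have q7 : 1 + ‖w‖ ≤ (1 + ‖v‖) * (1 + ‖w‖) := le_mul_of_one_le_left hww.le q4
    have q8 : (d : ℝ) + 1 ≤ ((d : ℝ) + 1) ^ 2 := by nlinarith
    have q9 : 0 ≤ (1 + ‖v‖) * (1 + ‖w‖) := by positivity
    have q10 : ((d : ℝ) + 1) * (1 + ‖v‖) ≤ ((d : ℝ) + 1) ^ 2 * ((1 + ‖v‖) * (1 + ‖w‖)) :=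
      mul_le_mul q8 q6 hwv.le (by positivity)
    have q11 : ((d : ℝ) + 1) * (1 + ‖w‖) ≤ ((d : ℝ) + 1) ^ 2 * ((1 + ‖v‖) * (1 + ‖w‖)) :=
      mul_le_mul q8 q7 hww.le (by positivity)
    linarith
  have h5 : RR v w ^ 3 ≤ (2 * ((d : ℝ) + 1) ^ 2 * ((1 + ‖v‖) * (1 + ‖w‖))) ^ 3 :=
    pow_le_pow_left₀ (by linarith) h4 3
  calc RR v w ^ 3 ≤ (2 * ((d : ℝ) + 1) ^ 2 * ((1 + ‖v‖) * (1 + ‖w‖))) ^ 3 := h5
    _ = (2 * ((d : ℝ) + 1) ^ 2) ^ 3 * ((1 + ‖v‖) ^ 3 * (1 + ‖w‖) ^ 3) := by ring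

private lemma wint_len {e : ℝ} (h0 : 0 ≤ e) {n : ℕ} (he : e ≤ n) (v w : Vec d) :
    len (v - w) ^ e ≤ (2 * RR v w) ^ n := by
  have hR1 := one_le_RR v w
  calc len (v - w) ^ e ≤ (2 * RR v w) ^ e := Real.rpow_le_rpow (len_nonneg _) (len_le_RR v w) h0
    _ ≤ (2 * RR v w) ^ (n : ℝ) := Real.rpow_le_rpow_of_exponent_le (by linarith) he
    _ = (2 * RR v w) ^ n := Real.rpow_natCast _ _

private noncomputable def wintW (d : ℕ) : ℝ := 16 * (2 * ((d : ℝ) + 1) ^ 2) ^ 3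

private lemma wintW_nonneg (d : ℕ) : 0 ≤ wintW d := by
  unfold wintW
  positivity

private lemma wint_wN_le (E : EQ a β) {V : ℝ} (hV : 1 ≤ V) (v w : Vec d) :
    wN a β V (v, w) ≤ wintW d * ((1 + ‖v‖) ^ 3 * (1 + ‖w‖) ^ 3) := by
  have hR1 := one_le_RR v w
  obtain ⟨o0, o1⟩ := om_RR (β := β) E.hβ1.le hV v w
  have h1 : len (v - w) ^ (1 + a) ≤ (2 * RR v w) ^ 2 :=
    wint_len (by linarith [E.ha]) (by push_cast; linarith [E.a1]) v w
  have h2 : len (v - w) ^ β ≤ (2 * RR v w) ^ 1 :=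
    wint_len E.β0.le (by push_cast; linarith [E.hβ1]) v w
  have n1 : 0 ≤ len (v - w) ^ (1 + a) := Real.rpow_nonneg (len_nonneg _) _
  have n2 : 0 ≤ len (v - w) ^ β := Real.rpow_nonneg (len_nonneg _) _
  have h3 : len (v - w) ^ (1 + a) * (1 + len (v - w) ^ β) ≤ (2 * RR v w) ^ 2 * (4 * RR v w) := by
    refine mul_le_mul h1 ?_ (by linarith) (by positivity)
    rw [pow_one] at h2
    linarith
  have h4 : (len (v - w) ^ (1 + a) * (1 + len (v - w) ^ β)) * om β V (RR v w) ≤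
      (2 * RR v w) ^ 2 * (4 * RR v w) := by
    refine le_trans (mul_le_of_le_one_right (mul_nonneg n1 (by linarith)) o1) h3
  have h5 := wint_RR3 v w
  show len (v - w) ^ (1 + a) * (1 + len (v - w) ^ β) * om β V (RR v w) ≤ _
  calc len (v - w) ^ (1 + a) * (1 + len (v - w) ^ β) * om β V (RR v w)
      ≤ (2 * RR v w) ^ 2 * (4 * RR v w) := h4
    _ = 16 * RR v w ^ 3 := by ring
    _ ≤ 16 * ((2 * ((d : ℝ) + 1) ^ 2) ^ 3 * ((1 + ‖v‖) ^ 3 * (1 + ‖w‖) ^ 3)) := by linarith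
    _ = wintW d * ((1 + ‖v‖) ^ 3 * (1 + ‖w‖) ^ 3) := by unfold wintW; ring

private lemma wint_b {h : ℝ} {v : Vec d} {M : ℝ} {n : ℕ}
    (hb : (1 + ‖v‖) ^ (n + 3) * h ≤ M) : h * (1 + ‖v‖) ^ 3 ≤ M * ((1 + ‖v‖) ^ n)⁻¹ := by
  have hw := w_pos v
  rw [← div_eq_mul_inv, le_div_iff₀ (pow_pos hw _)]
  calc h * (1 + ‖v‖) ^ 3 * (1 + ‖v‖) ^ n = (1 + ‖v‖) ^ (n + 3) * h := by ring
    _ ≤ M := hb

private lemma wint_rd {G : Vec d → ℝ} (hG : RD G) (n : ℕ) :
    ∃ K, 0 ≤ K ∧ ∀ v, ‖G v‖ * (1 + ‖v‖) ^ 3 ≤ K * ((1 + ‖v‖) ^ n)⁻¹ := by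
  obtain ⟨K, hK⟩ := hG (n + 3)
  refine ⟨K, ?_, fun v => wint_b (hK v)⟩
  exact le_trans (by positivity) (hK 0)

theorem wN_int (E : EQ a β) {G : Vec d → ℝ} (hG : RD G) (hGc : Continuous G) {V : ℝ}
    (hV : 1 ≤ V) : Integrable fun q : Vec d × Vec d => G q.1 * G q.2 * wN a β V q := by
  obtain ⟨K, hK0, hK⟩ := wint_rd hG (d + 1)
  have iw : Integrable fun p : Vec d × Vec d => wt d p.1 * wt d p.2 :=
    (integrable_wt (d := d)).mul_prod integrable_wt
  have hm : Measurable fun q : Vec d × Vec d => G q.1 * G q.2 * wN a β V q :=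
    ((hGc.measurable.comp measurable_fst).mul (hGc.measurable.comp measurable_snd)).mul
      (wN_meas E.hβ1.le a V)
  refine (iw.const_mul (wintW d * (K * K))).mono' hm.aestronglyMeasurable
    (Eventually.of_forall fun q => ?_)
  obtain ⟨v, w⟩ := q
  have h1 := wint_wN_le E hV v w
  have h0 := wN_nonneg (a := a) (β := β) hV (v, w)
  have e1 : ‖G v‖ * (1 + ‖v‖) ^ 3 ≤ K * wt d v := hK v
  have e2 : ‖G w‖ * (1 + ‖w‖) ^ 3 ≤ K * wt d w := hK w
  have hv := w_pos v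
  have hw := w_pos w
  rw [norm_mul, norm_mul, Real.norm_eq_abs (wN a β V (v, w)), abs_of_nonneg h0]
  calc ‖G v‖ * ‖G w‖ * wN a β V (v, w)
      ≤ ‖G v‖ * ‖G w‖ * (wintW d * ((1 + ‖v‖) ^ 3 * (1 + ‖w‖) ^ 3)) :=
        mul_le_mul_of_nonneg_left h1 (by positivity)
    _ = wintW d * ((‖G v‖ * (1 + ‖v‖) ^ 3) * (‖G w‖ * (1 + ‖w‖) ^ 3)) := by ring
    _ ≤ wintW d * ((K * wt d v) * (K * wt d w)) := by
        refine mul_le_mul_of_nonneg_left ?_ (wintW_nonneg d)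
        exact mul_le_mul e1 e2 (by positivity) (mul_nonneg hK0 (wt_nonneg v))
    _ = wintW d * (K * K) * (wt d v * wt d w) := by ring

private theorem wint_gau_pos (v : Vec d) : 0 < gau v := Real.exp_pos _

theorem XN_reg (E : EQ a β) (Cl : ℕ → ℝ) {η : ℝ} (hη : 0 < η) :
    ∃ δ₀ > 0, ∀ δ ∈ Ioc (0 : ℝ) δ₀, ∀ g : Vec d → ℝ, UNice Cl g → ∀ V : ℝ, 1 ≤ V →
      XN a β V (fun v => g v + δ * gau v) ≤ XN a β V g + η := by
  obtain ⟨cg, hcg⟩ : ∃ c, ∀ v : Vec d, (1 + ‖v‖) ^ (d + 4) * ‖gau v‖ ≤ c :=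
    (Pool.Agent.H15.AV.nice_gau (d := d)).rd (d + 4)
  set M : ℝ := max (max (Cl (d + 4)) cg) 0 with hM
  have hM0 : 0 ≤ M := le_max_right _ _
  have hMC : Cl (d + 4) ≤ M := (le_max_left _ _).trans (le_max_left _ _)
  have hMg : cg ≤ M := (le_max_right _ _).trans (le_max_left _ _)
  have hW0 : 0 ≤ wintW d := wintW_nonneg d
  set I : ℝ := (∫ z, wt d z) * ∫ z, wt d z with hI
  have hI1 : 0 ≤ ∫ z, wt d z := integral_nonneg fun z => wt_nonneg z
  have hI0 : 0 ≤ I := mul_nonneg hI1 hI1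
  set K : ℝ := 3 * (M * M) * wintW d with hK
  have hK0 : 0 ≤ K := by positivity
  have hKI : 0 ≤ K * I := mul_nonneg hK0 hI0
  refine ⟨min 1 (η / (K * I + 1)), lt_min one_pos (div_pos hη (by linarith)),
    fun δ hδ g hg V hV => ?_⟩
  have hδ0 : 0 < δ := hδ.1
  have hδ1 : δ ≤ 1 := hδ.2.trans (min_le_left _ _)
  have hδ2 : δ * (K * I) ≤ η := by
    have h1 : δ ≤ η / (K * I + 1) := hδ.2.trans (min_le_right _ _)
    rw [le_div_iff₀ (by linarith)] at h1
    have h2 : δ * (K * I) ≤ δ * (K * I + 1) := mul_le_mul_of_nonneg_left (by linarith) hδ0.le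
    linarith
  obtain ⟨hGrd, hGc, hGpos, -⟩ := reg_props hg hδ0 hδ1
  have iG := wN_int (V := V) E hGrd hGc hV
  have ig := wN_int (V := V) E hg.nice.rd hg.nice.cont hV
  have iw : Integrable fun p : Vec d × Vec d => wt d p.1 * wt d p.2 :=
    (integrable_wt (d := d)).mul_prod integrable_wt
  have bg : ∀ v, g v * (1 + ‖v‖) ^ 3 ≤ M * wt d v := fun v => wint_b (n := d + 1) (by
    have h1 := hg.le (d + 4) v
    have h2 : 0 ≤ (1 + ‖v‖) ^ (d + 4) := pow_nonneg (w_pos v).le _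
    have h3 : (1 + ‖v‖) ^ (d + 4) * g v ≤
        (1 + ‖v‖) ^ (d + 4) * (g v + ‖fderiv ℝ g v‖ + ‖fderiv ℝ (fderiv ℝ g) v‖) :=
      mul_le_mul_of_nonneg_left (by
        have := norm_nonneg (fderiv ℝ g v)
        have := norm_nonneg (fderiv ℝ (fderiv ℝ g) v)
        linarith) h2
    show (1 + ‖v‖) ^ (d + 4) * g v ≤ M
    linarith)
  have bm : ∀ v, gau v * (1 + ‖v‖) ^ 3 ≤ M * wt d v := fun v => wint_b (n := d + 1) (by
    have h1 := hcg v
    rw [Real.norm_eq_abs, abs_of_pos (wint_gau_pos v)] at h1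
    show (1 + ‖v‖) ^ (d + 4) * gau v ≤ M
    linarith)
  have key : ∀ p : Vec d × Vec d,
      (g p.1 + δ * gau p.1) * (g p.2 + δ * gau p.2) * wN a β V p ≤
      g p.1 * g p.2 * wN a β V p + δ * K * (wt d p.1 * wt d p.2) := by
    rintro ⟨v, w⟩
    have hwv := w_pos v
    have hww := w_pos w
    have gv := hg.nonneg v
    have gw := hg.nonneg w
    have mv := (wint_gau_pos v).le
    have mw := (wint_gau_pos w).le
    have hwt0 := wN_nonneg (a := a) (β := β) hV (v, w)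
    have hwt := wint_wN_le E hV v w
    have hS0 : 0 ≤ g v * gau w + gau v * g w + gau v * gau w := by positivity
    have hprod : (g v + δ * gau v) * (g w + δ * gau w) ≤
        g v * g w + δ * (g v * gau w + gau v * g w + gau v * gau w) := by
      have h1 : δ * δ * (gau v * gau w) ≤ δ * (gau v * gau w) := by
        refine mul_le_mul_of_nonneg_right ?_ (mul_nonneg mv mw)
        nlinarith
      nlinarith
    have hterm : ∀ x y : ℝ, 0 ≤ x → 0 ≤ y → x * (1 + ‖v‖) ^ 3 ≤ M * wt d v →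
        y * (1 + ‖w‖) ^ 3 ≤ M * wt d w →
        x * y * ((1 + ‖v‖) ^ 3 * (1 + ‖w‖) ^ 3) ≤ M * M * (wt d v * wt d w) := by
      intro x y hx hy h1 h2
      have h3 : 0 ≤ M * wt d v := mul_nonneg hM0 (wt_nonneg v)
      have := mul_le_mul h1 h2 (mul_nonneg hy (pow_nonneg hww.le _)) h3
      calc x * y * ((1 + ‖v‖) ^ 3 * (1 + ‖w‖) ^ 3)
          = x * (1 + ‖v‖) ^ 3 * (y * (1 + ‖w‖) ^ 3) := by ring
        _ ≤ M * wt d v * (M * wt d w) := this
        _ = M * M * (wt d v * wt d w) := by ring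
    have t1 := hterm (g v) (gau w) gv mw (bg v) (bm w)
    have t2 := hterm (gau v) (g w) mv gw (bm v) (bg w)
    have t3 := hterm (gau v) (gau w) mv mw (bm v) (bm w)
    have hsum : (g v * gau w + gau v * g w + gau v * gau w) * wN a β V (v, w) ≤
        K * (wt d v * wt d w) := by
      have h1 := mul_le_mul_of_nonneg_left hwt hS0
      have h2 : (g v * gau w + gau v * g w + gau v * gau w) *
          ((1 + ‖v‖) ^ 3 * (1 + ‖w‖) ^ 3) ≤ 3 * (M * M * (wt d v * wt d w)) := by linarith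
      have h3 := mul_le_mul_of_nonneg_left h2 hW0
      calc (g v * gau w + gau v * g w + gau v * gau w) * wN a β V (v, w)
          ≤ (g v * gau w + gau v * g w + gau v * gau w) *
            (wintW d * ((1 + ‖v‖) ^ 3 * (1 + ‖w‖) ^ 3)) := h1
        _ = wintW d * ((g v * gau w + gau v * g w + gau v * gau w) *
            ((1 + ‖v‖) ^ 3 * (1 + ‖w‖) ^ 3)) := by ring
        _ ≤ wintW d * (3 * (M * M * (wt d v * wt d w))) := h3
        _ = K * (wt d v * wt d w) := by rw [hK]; ring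
    have h1 := mul_le_mul_of_nonneg_right hprod hwt0
    have h2 := mul_le_mul_of_nonneg_left hsum hδ0.le
    simp only
    calc (g v + δ * gau v) * (g w + δ * gau w) * wN a β V (v, w)
        ≤ (g v * g w + δ * (g v * gau w + gau v * g w + gau v * gau w)) * wN a β V (v, w) := h1
      _ = g v * g w * wN a β V (v, w) +
          δ * ((g v * gau w + gau v * g w + gau v * gau w) * wN a β V (v, w)) := by ring
      _ ≤ g v * g w * wN a β V (v, w) + δ * K * (wt d v * wt d w) := by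
          linarith
  have hmono : XN a β V (fun v => g v + δ * gau v) ≤
      ∫ p : Vec d × Vec d, (g p.1 * g p.2 * wN a β V p + δ * K * (wt d p.1 * wt d p.2)) := by
    unfold XN
    exact integral_mono iG (ig.add (iw.const_mul _)) key
  have hsplit : ∫ p : Vec d × Vec d, (g p.1 * g p.2 * wN a β V p +
      δ * K * (wt d p.1 * wt d p.2)) = XN a β V g + δ * K * I := by
    unfold XN
    rw [integral_add ig (iw.const_mul _), integral_const_mul, hI]
    congr 2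
    exact integral_prod_mul (wt d) (wt d)
  have h4 : δ * K * I = δ * (K * I) := by ring
  linarith

/-- the weight of `XT` -/
private noncomputable def wT (a β V : ℝ) (q : Vec d × Vec d) : ℝ :=
  len (q.1 - q.2) ^ (1 + a) * jb (q.1 - q.2) ^ β * om β V (RR q.1 q.2)

private lemma jb_pow_ge (hβ : 0 < β) (x : Vec d) : 1 + len x ^ β ≤ 2 * jb x ^ β := by
  have h1 : 1 ≤ jb x ^ β := Real.one_le_rpow (one_le_jb x) hβ.le
  have h2 : len x ^ β ≤ jb x ^ β := Real.rpow_le_rpow (len_nonneg x) (len_le_jb x) hβ.le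
  linarith

private lemma jb_pow_le (hβ : 0 < β) (hβ1 : β < 1) (x : Vec d) : jb x ^ β ≤ 1 + len x ^ β := by
  have h1 : jb x ≤ 1 + len x := by
    have h2 := jb_lip x 0
    have h3 : jb (0 : Vec d) = 1 := by
      unfold jb
      rw [show nsq (0 : Vec d) = 0 by simp [nsq], add_zero, Real.sqrt_one]
    rw [h3, sub_zero] at h2
    have := (abs_le.1 h2).2
    linarith
  calc jb x ^ β ≤ (1 + len x) ^ β := Real.rpow_le_rpow (jb_pos x).le h1 hβ.le
    _ ≤ 1 ^ β + len x ^ β := Real.rpow_add_le_add_rpow zero_le_one (len_nonneg x) hβ.le hβ1.le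
    _ = 1 + len x ^ β := by rw [Real.one_rpow]

private lemma wT_nonneg {V : ℝ} (hV : 1 ≤ V) (q : Vec d × Vec d) : 0 ≤ wT a β V q := by
  unfold wT
  exact mul_nonneg (mul_nonneg (Real.rpow_nonneg (len_nonneg _) _)
    (Real.rpow_nonneg (jb_pos _).le _)) (om_nn hV (RR_pos _ _).le)

private lemma wN_le_wT (E : EQ a β) {V : ℝ} (hV : 1 ≤ V) (q : Vec d × Vec d) :
    wN a β V q ≤ 2 * wT a β V q := by
  unfold wN wT
  have h1 := jb_pow_ge E.β0 (q.1 - q.2)
  have h2 : 0 ≤ len (q.1 - q.2) ^ (1 + a) := Real.rpow_nonneg (len_nonneg _) _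
  have h3 := om_nn (β := β) hV (RR_pos q.1 q.2).le
  calc len (q.1 - q.2) ^ (1 + a) * (1 + len (q.1 - q.2) ^ β) * om β V (RR q.1 q.2)
      ≤ len (q.1 - q.2) ^ (1 + a) * (2 * jb (q.1 - q.2) ^ β) * om β V (RR q.1 q.2) :=
        mul_le_mul_of_nonneg_right (mul_le_mul_of_nonneg_left h1 h2) h3
    _ = 2 * (len (q.1 - q.2) ^ (1 + a) * jb (q.1 - q.2) ^ β * om β V (RR q.1 q.2)) := by ring

private lemma wT_le_wN (E : EQ a β) {V : ℝ} (hV : 1 ≤ V) (q : Vec d × Vec d) :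
    wT a β V q ≤ wN a β V q := by
  unfold wN wT
  exact mul_le_mul_of_nonneg_right (mul_le_mul_of_nonneg_left (jb_pow_le E.β0 E.hβ1 _)
    (Real.rpow_nonneg (len_nonneg _) _)) (om_nn hV (RR_pos _ _).le)

private lemma wT_meas (hβ : β ≤ 1) (a V : ℝ) : Measurable fun q : Vec d × Vec d => wT a β V q := by
  unfold wT
  have hj : Measurable fun q : Vec d × Vec d => jb (q.1 - q.2) :=
    (jb_cont.comp (by fun_prop : Continuous fun q : Vec d × Vec d => q.1 - q.2)).measurable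
  exact ((m_lenV2.pow_const _).mul (hj.pow_const _)).mul
    ((om_cont' hβ V).comp RR_cont).measurable

private lemma XT_eq {g : Vec d → ℝ} {V : ℝ} : XT a β V g = ∫ q, g q.1 * g q.2 * wT a β V q := by
  unfold XT wT
  congr 1
  funext q
  ring

lemma XT_nonneg {g : Vec d → ℝ} (h0 : ∀ v, 0 ≤ g v) {V : ℝ} (hV : 1 ≤ V) : 0 ≤ XT a β V g := by
  rw [XT_eq]
  exact integral_nonneg fun q => mul_nonneg (mul_nonneg (h0 _) (h0 _)) (wT_nonneg hV q)

theorem XN_le_XT (E : EQ a β) {g : Vec d → ℝ} (hg : RD g) (hgc : Continuous g)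
    (h0 : ∀ v, 0 ≤ g v) {V : ℝ} (hV : 1 ≤ V) : XN a β V g ≤ 4 * XT a β V g := by
  have hN := wN_int E hg hgc hV
  have hgm : Measurable fun q : Vec d × Vec d => g q.1 * g q.2 :=
    (hgc.measurable.comp measurable_fst).mul (hgc.measurable.comp measurable_snd)
  have hT : Integrable fun q : Vec d × Vec d => g q.1 * g q.2 * wT a β V q := by
    refine hN.mono' (hgm.mul (wT_meas E.hβ1.le a V)).aestronglyMeasurable
      (Eventually.of_forall fun q => ?_)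
    rw [Real.norm_eq_abs, abs_of_nonneg (mul_nonneg (mul_nonneg (h0 _) (h0 _)) (wT_nonneg hV q))]
    exact mul_le_mul_of_nonneg_left (wT_le_wN E hV q) (mul_nonneg (h0 _) (h0 _))
  have h1 : XN a β V g ≤ 2 * XT a β V g := by
    rw [XT_eq, ← integral_const_mul]
    refine integral_mono hN (hT.const_mul 2) fun q => ?_
    show g q.1 * g q.2 * wN a β V q ≤ 2 * (g q.1 * g q.2 * wT a β V q)
    have h2 := mul_le_mul_of_nonneg_left (wN_le_wT E hV q) (mul_nonneg (h0 q.1) (h0 q.2))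
    linarith
  have h2 := XT_nonneg (a := a) (β := β) h0 hV
  linarith

end Pool.Agent.H87.PG
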